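import Pool.Agent.Q7.LS.Stm
import Pool.Agent.Q123.LK.SH2

/-!
# Project LS of helper7, job SH2N: the solutions of the table, many classes, local conditions at all small places

(Adapted from the proofs of helper123 and helper153 for project LK.)
-/

set_option autoImplicit false

namespace Pool.Agent.Q224.LS

open NumberField IsDedekindDomain Filter Topology Finset
open Pool.Agent.Q7.LK Pool.Agent.Q123.LK Pool.Agent.Q7.LS
open Pool.Agent.Q283.LQ (Sm Box Nest nS)
open Pool.Agent.Q283.EN (CondX)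

variable {p : ℕ} [Fact p.Prime] {F : Type} [Field F] [NumberField F]

theorem condX_pow (hB : S_BAS) {y : ℕ} {D0 : F} {A : HeightOneSpectrum (𝓞 F) → F → Prop}
    {c : HeightOneSpectrum (𝓞 F) → ℕ} (hL : LocN p y D0 A c) {k : ℕ} {z : Fin k → ZMod p}
    {q : Fin k → HeightOneSpectrum (𝓞 F)} {D a : F} (hfit : Fits p y D0 z q D) (h : CondX p y A D a)
    (hD0 : D0 ≠ 0) (t : ℕ) : CondX p y A D (a * D ^ t) where
  ne := mul_ne_zero h.ne (pow_ne_zero _ hfit.ne)
  unr := by
    intro v hv ho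
    rw [vl_mul hB v h.ne (pow_ne_zero _ hfit.ne), vl_pow hB v hfit.ne, ho, h.unr v hv ho, mul_zero, add_zero]
  ram := by
    intro v hv ho
    obtain ⟨j, hj⟩ := h.ram v hv ho
    refine ⟨j + t * (p - 1), ?_⟩
    have h1 : a * D ^ t * D ^ (j + t * (p - 1)) = (a * D ^ j) * (D ^ t) ^ p := by
      have hp : p = (p - 1) + 1 := by
        have := (Fact.out : p.Prime).one_lt
        omega
      have h2 : (D ^ t) ^ p = D ^ t * D ^ (t * (p - 1)) := by
        rw [← pow_mul, ← pow_add]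
        congr 1
        conv_lhs => rw [hp]
        ring
      rw [h2, pow_add]
      ring
    rw [h1]
    exact lpw_mul hB hj (lpw_pow_p hB v (pow_ne_zero _ hfit.ne))
  loc := by
    intro v hv
    have h1 : ∀ t : ℕ, A v (a * D0 ^ t) := by
      intro t
      induction t with
      | zero => rw [pow_zero, mul_one]; exact h.loc v hv
      | succ t ih =>
        rw [pow_succ, ← mul_assoc]
        exact hL.clo v _ hv ih
    have h2 := hL.mul v _ _ hv (h1 t) (lpw_pow hB (hfit.loc v hv) t)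
    have h3 : a * D0 ^ t * (D / D0) ^ t = a * D ^ t := by
      rw [mul_assoc, ← mul_pow, mul_div_cancel₀ _ hD0]
    rwa [h3] at h2

/-- the solution belonging to `a` -/
theorem solX (hB : S_BAS) (hSH1 : S_SH1) {ζ : F} (hζ : IsPrimitiveRoot ζ p) {y f : ℕ} {u r : Fin f → F}
    {π : HeightOneSpectrum (𝓞 F) → F} {g : (Fin f → ZMod p) → (Fin f → ZMod p) → ZMod p}
    (B : Base p ζ y f u r π g) {A : HeightOneSpectrum (𝓞 F) → F → Prop}
    {D0 : F} {ψ w : Fin f → ZMod p} (hD0 : D0 ≠ 0) (hw : Nn p y (D0 * mon r ψ * mon u w))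
    {k : ℕ} (z : Fin k → ZMod p) (q : Fin k → HeightOneSpectrum (𝓞 F)) (hz : ∀ i, z i ≠ 0)
    (hq : Function.Injective q) (hS : ∀ i, ¬ Sm y (q i)) (τ : Tab p f k) (hτ : Tb ζ u π τ q)
    (E : Finset ((Fin f → ZMod p) × (Fin f → ZMod p)))
    (hE : ∀ a x, a ≠ 0 → (∀ v, Sm y v → A v a) → Nn p y (a * mon r x.1 * mon u x.2) → x ∈ E)
    {D : F} (hfit : Fits p y D0 z q D) {a : F} (ha : CondX p y A D a)
    (h0 : ∀ j : Fin k, (j : ℕ) = 0 → vl p (q j) a = 0) (hns : ¬ IsPow p a) :
    ∃ x : (Fin f → ZMod p) × (Fin k → ZMod p), IsSol g w z E τ x ∧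
      Eqv p (a * mon u x.1) (∏ j, π (q j) ^ (x.2 j).val) := by
  classical
  have hp0 : p ≠ 0 := (Fact.out : p.Prime).ne_zero
  have hπ : ∀ i, π (q i) ≠ 0 := fun i => (B.po (q i) (hS i)).1
  have hdp : ∀ v : HeightOneSpectrum (𝓞 F), ¬ Sm y v → ¬ Dp p v := fun v hv h => hv (sm_of_dp B.two h)
  have hvD : ∀ j, vl p (q j) D = z j := by
    intro j
    rw [hfit.ram _ (hS j), Finset.sum_eq_single j]
    · rw [if_pos rfl]
    · intro i _ hi
      rw [if_neg fun h => hi (hq h)]
    · intro h; exact absurd (Finset.mem_univ j) h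
  have hvπ : ∀ i v, ¬ Sm y v → vl p v (π (q i)) = if q i = v then 1 else 0 := by
    intro i v hv
    rw [(B.po (q i) (hS i)).2 v hv]
    by_cases h : v = q i
    · rw [if_pos h, if_pos h.symm]
    · rw [if_neg h, if_neg fun h' => h h'.symm]
  set Y : Fin k → ZMod p := fun j => vl p (q j) a with hY
  set P : F := ∏ j, π (q j) ^ (Y j).val with hP
  have hP0 : P ≠ 0 := Finset.prod_ne_zero_iff.2 fun j _ => pow_ne_zero _ (hπ j)
  have hvP : ∀ v, ¬ Sm y v → vl p v P = ∑ j, if q j = v then Y j else 0 := by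
    intro v hv
    rw [hP, vl_prod hB v _ _ fun j _ => pow_ne_zero _ (hπ j)]
    refine Finset.sum_congr rfl fun j _ => ?_
    rw [vl_pow hB v (hπ j), hvπ j v hv, ZMod.natCast_zmod_val]
    split_ifs
    · rw [mul_one]
    · rw [mul_zero]
  have hev : ∀ v, ¬ Sm y v → vl p v (a * P⁻¹) = 0 := by
    intro v hv
    rw [vl_mul hB v ha.ne (inv_ne_zero hP0), vl_inv hB v hP0, hvP v hv]
    by_cases h : ∃ i, q i = v
    · obtain ⟨i, rfl⟩ := h
      rw [Finset.sum_eq_single i]
      · rw [if_pos rfl, add_neg_cancel]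
      · intro j _ hj
        rw [if_neg fun h => hj (hq h)]
      · intro h; exact absurd (Finset.mem_univ i) h
    · have h1 : vl p v D = 0 := by
        rw [hfit.ram v hv]
        exact Finset.sum_eq_zero fun i _ => if_neg fun h' => h ⟨i, h'⟩
      rw [ha.unr v hv h1, Finset.sum_eq_zero fun i _ => if_neg fun h' => h ⟨i, h'⟩, neg_zero, add_zero]
  obtain ⟨c, hc⟩ := B.full _ (mul_ne_zero ha.ne (inv_ne_zero hP0)) hev
  have hmc : mon u c ≠ 0 := mon_ne B.ue c
  have hmw : mon u w ≠ 0 := mon_ne B.ue w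
  have hc1 : Eqv p (a * P⁻¹ * mon u c) 1 :=
    eqv_one_of (mul_ne_zero (mul_ne_zero ha.ne (inv_ne_zero hP0)) hmc) hc hp0
  have hc2 : Eqv p (a * mon u c) P := by
    have h1 := eqv_mul hc1 (eqv_refl (p := p) P)
    rw [one_mul] at h1
    have h2 : a * P⁻¹ * mon u c * P = a * mon u c := by field_simp
    rwa [h2] at h1
  refine ⟨(c, Y), ⟨h0, ?_, ?_, ?_⟩, hc2⟩
  · intro h
    have h1 : c = 0 := congrArg Prod.fst h
    have h2 : Y = 0 := congrArg Prod.snd h
    apply hns
    have h3 : P = 1 := by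
      rw [hP, h2]
      simp
    have h4 : mon u c = 1 := by
      rw [h1]
      simp [mon]
    rw [h3, h4, mul_one] at hc2
    exact isPow_of hc2
  · -- the class
    show (∑ j, Y j • τ.1 j, c) ∈ E
    refine hE a _ ha.ne ha.loc ?_
    have h1 := nn_gen hB B q hS τ.1 hτ.1 Y
    have h2 : Eqv p (a * mon r (∑ j, Y j • τ.1 j) * mon u c) (P * mon r (∑ j, Y j • τ.1 j)) := by
      have h3 := eqv_mul hc2 (eqv_refl (p := p) (mon r (∑ j, Y j • τ.1 j)))
      have h4 : a * mon u c * mon r (∑ j, Y j • τ.1 j) = a * mon r (∑ j, Y j • τ.1 j) * mon u c := by ring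
      rwa [h4] at h3
    exact nn_eqv hB h2 h1
  · intro j
    show ∑ i, (Y i - Y j * (z j)⁻¹ * z i) * Mt g τ i j = dot (τ.1 j) (c - (Y j * (z j)⁻¹) • w)
    have hdj := hdp _ (hS j)
    obtain ⟨s, hs⟩ := ha.ram (q j) (hS j) (by rw [hvD j]; exact hz j)
    have hvs := lpw_vl hB hs
    rw [vl_mul hB _ ha.ne (pow_ne_zero _ hfit.ne), vl_pow hB _ hfit.ne, hvD j] at hvs
    have hs' : (s : ZMod p) = - (Y j * (z j)⁻¹) := by
      have h1 : Y j + s * z j = 0 := hvs
      have h2 := hz j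
      field_simp
      linear_combination h1
    -- the relation for `D`
    have hDw := (hSH1 p F ζ hζ y f u r π g B D0 ψ w hD0 hw k z q hq hS τ hτ).2 D hfit
    set Q : F := ∏ j, π (q j) ^ (z j).val with hQ
    have hQ0 : Q ≠ 0 := Finset.prod_ne_zero_iff.2 fun j _ => pow_ne_zero _ (hπ j)
    have hD1 : Eqv p (D * mon u w) Q := by
      have h1 := eqv_one_of (div_ne_zero (mul_ne_zero hfit.ne hmw) hQ0) hDw hp0
      have h2 := eqv_mul h1 (eqv_refl (p := p) Q)
      rwa [one_mul, div_mul_cancel₀ _ hQ0] at h2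
    -- all together
    have h1 : Eqv p (a * D ^ s * (mon u c * mon u w ^ s)) (∏ i, π (q i) ^ ((Y i).val + s * (z i).val)) := by
      have h2 := eqv_mul hc2 (eqv_pow hD1 s)
      have h3 : a * mon u c * (D * mon u w) ^ s = a * D ^ s * (mon u c * mon u w ^ s) := by
        rw [mul_pow]; ring
      have h4 : P * Q ^ s = ∏ i, π (q i) ^ ((Y i).val + s * (z i).val) := by
        rw [hP, hQ, ← Finset.prod_pow, ← Finset.prod_mul_distrib]
        refine Finset.prod_congr rfl fun i _ => ?_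
        rw [pow_add, mul_comm s, pow_mul]
      rwa [h3, h4] at h2
    have h2 : ∏ i, π (q i) ^ ((Y i).val + s * (z i).val) =
        (∏ i ∈ univ.erase j, π (q i) ^ ((Y i).val + s * (z i).val)) * π (q j) ^ ((Y j).val + s * (z j).val) :=
      (Finset.prod_erase_mul _ _ (Finset.mem_univ j)).symm
    have h3 : p ∣ (Y j).val + s * (z j).val := by
      rw [← ZMod.natCast_eq_zero_iff, Nat.cast_add, Nat.cast_mul, ZMod.natCast_zmod_val, ZMod.natCast_zmod_val]
      exact hvs
    obtain ⟨m, hm⟩ := h3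
    set R : F := ∏ i ∈ univ.erase j, π (q i) ^ ((Y i).val + s * (z i).val) with hR
    have hR0 : R ≠ 0 := Finset.prod_ne_zero_iff.2 fun i _ => pow_ne_zero _ (hπ i)
    have h4 : Eqv p (a * D ^ s * (mon u c * mon u w ^ s)) R := by
      refine eqv_trans h1 ?_
      rw [h2, hm, mul_comm p m, pow_mul]
      exact eqv_one_mul (eqv_pow_p (pow_ne_zero _ (hπ j)))
    have hoi : ∀ i ∈ univ.erase j, vl p (q j) (π (q i)) = 0 := by
      intro i hi
      rw [hvπ i _ (hS j), if_neg fun h => (Finset.mem_erase.1 hi).1 (hq h)]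
    have hvR : vl p (q j) R = 0 := by
      rw [hR, vl_prod hB _ _ _ fun i _ => pow_ne_zero _ (hπ i)]
      refine Finset.sum_eq_zero fun i hi => ?_
      rw [vl_pow hB _ (hπ i), hoi i hi, mul_zero]
    have hou : ∀ l, vl p (q j) (u l) = 0 := fun l => B.uo l _ (hS j)
    have hvc : vl p (q j) (mon u c) = 0 := vl_mon hB _ B.ue hou c
    have hvw : vl p (q j) (mon u w) = 0 := vl_mon hB _ B.ue hou w
    have hvws : vl p (q j) (mon u w ^ s) = 0 := by rw [vl_pow hB _ hmw, hvw, mul_zero]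
    have h5 := sy_eqv hB hζ hdj h4 hR0 hvR
    rw [sy_mul hB hζ hdj (mul_ne_zero ha.ne (pow_ne_zero _ hfit.ne)) (mul_ne_zero hmc (pow_ne_zero _ hmw))
        (lpw_vl hB hs) (by rw [vl_mul hB _ hmc (pow_ne_zero _ hmw), hvc, hvws, add_zero]),
      sy_lpw hB hζ hdj hs, zero_add, sy_mul hB hζ hdj hmc (pow_ne_zero _ hmw) hvc hvws,
      sy_pow hB hζ hdj hmw hvw, sy_mon hB hζ hdj B.ue hou, sy_mon hB hζ hdj B.ue hou, hR,
      sy_prod hB hζ hdj _ _ (fun i _ => pow_ne_zero _ (hπ i))
        (fun i hi => by rw [vl_pow hB _ (hπ i), hoi i hi, mul_zero])] at h5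
    have h6 : (fun l => sy p ζ (q j) (u l)) = τ.1 j := funext fun l => hτ.1 j l
    rw [h6] at h5
    have h7 : ∀ i ∈ univ.erase j, sy p ζ (q j) (π (q i) ^ ((Y i).val + s * (z i).val)) =
        (Y i - Y j * (z j)⁻¹ * z i) * Mt g τ i j := by
      intro i hi
      have hij : i ≠ j := (Finset.mem_erase.1 hi).1
      rw [sy_pow hB hζ hdj (hπ i) (hoi i hi), Nat.cast_add, Nat.cast_mul, ZMod.natCast_zmod_val,
        ZMod.natCast_zmod_val, hs']
      have h8 : sy p ζ (q j) (π (q i)) = Mt g τ i j := by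
        unfold Mt
        rcases lt_trichotomy i j with h9 | h9 | h9
        · rw [dif_pos h9]
          exact hτ.2 ⟨(i, j), h9⟩
        · exact absurd h9 hij
        · rw [dif_neg (not_lt.mpr h9.le), dif_pos h9]
          have h10 := B.rcp (q i) (q j) (hS i) (hS j) fun h => hij (hq h)
          have h11 := hτ.2 ⟨(j, i), h9⟩
          simp only at h11
          have h12 : (fun l => sy p ζ (q i) (u l)) = τ.1 i := funext fun l => hτ.1 i l
          rw [h6, h12, h11] at h10
          rw [← h10]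
          ring
      rw [h8]
      ring
    rw [Finset.sum_congr rfl h7] at h5
    rw [← Finset.sum_erase_add _ _ (Finset.mem_univ j), ← h5, hs']
    have h8 : Y j - Y j * (z j)⁻¹ * z j = 0 := by
      rw [mul_assoc, inv_mul_cancel₀ (hz j), mul_one, sub_self]
    rw [h8, zero_mul, add_zero]
    simp only [dot, Pi.sub_apply, Pi.smul_apply, smul_eq_mul, mul_sub, Finset.sum_sub_distrib]
    rw [neg_mul, ← sub_eq_add_neg, Finset.mul_sum]
    congr 1
    exact Finset.sum_congr rfl fun l _ => by ring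

/-- **JOB SH2N** -/
theorem sh2n (hBAS : S_BAS) (hSH1 : S_SH1) : S_SH2N := by
  classical
  intro p _ F _ _ ζ hζ y f u r π g B D0 A cc hL ψ w hD0 hw k z q hk hz hq hS τ hτ E hE D hfit N hmany
  obtain ⟨a, ha, hne⟩ := hmany
  have hpp : p.Prime := Fact.out
  have hp0 : p ≠ 0 := hpp.ne_zero
  have hp1 : 1 < p := hpp.one_lt
  have hD := hfit.ne
  have hvD : ∀ j, vl p (q j) D = z j := by
    intro j
    rw [hfit.ram _ (hS j), Finset.sum_eq_single j]
    · rw [if_pos rfl]
    · intro i _ hi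
      rw [if_neg fun h => hi (hq h)]
    · intro h; exact absurd (Finset.mem_univ j) h
  have key : ∀ i : Fin N, ∃ (x : (Fin f → ZMod p) × (Fin k → ZMod p)) (t : ℕ), IsSol g w z E τ x ∧
      Eqv p (a i * D ^ t * mon u x.1) (∏ j, π (q j) ^ (x.2 j).val) := by
    intro i
    set j0 : Fin k := ⟨0, hk⟩
    set e : ZMod p := - (vl p (q j0) (a i) * (z j0)⁻¹) with he
    have hai := (ha i).1.ne
    have h1 := condX_pow hBAS hL hfit (ha i).1 hD0 e.val
    have h2 : ∀ j : Fin k, (j : ℕ) = 0 → vl p (q j) (a i * D ^ e.val) = 0 := by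
      intro j hj
      have hj' : j = j0 := Fin.ext hj
      rw [hj', vl_mul hBAS _ hai (pow_ne_zero _ hD), vl_pow hBAS _ hD, hvD,
        ZMod.natCast_zmod_val, he, neg_mul, mul_assoc, inv_mul_cancel₀ (hz j0), mul_one, add_neg_cancel]
    have h3 : ¬ IsPow p (a i * D ^ e.val) := (ha i).2 e.val
    obtain ⟨x, hx1, hx2⟩ := solX hBAS hSH1 hζ B hD0 hw z q hz hq hS τ hτ E hE hfit h1 h2 h3
    exact ⟨x, e.val, hx1, hx2⟩
  choose x t hx hxe using key
  have hinj : Function.Injective x := by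
    intro i i' h
    by_contra hii
    have h1 := hxe i
    rw [h] at h1
    have h2 := eqv_trans h1 (eqv_symm (hxe i'))
    have hm : mon u (x i').1 ≠ 0 := mon_ne B.ue _
    have h3 : Eqv p (a i * D ^ t i) (a i' * D ^ t i') := by
      have h4 := eqv_mul h2 (eqv_refl (p := p) (mon u (x i').1)⁻¹)
      rwa [mul_inv_cancel_right₀ hm, mul_inv_cancel_right₀ hm] at h4
    apply hne i i' hii (t i + t i' * (p - 1))
    apply isPow_of
    have h5 := eqv_mul h3 (eqv_refl (p := p) (a i' * D ^ t i')⁻¹)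
    have ha1 : a i' ≠ 0 := (ha i').1.ne
    have hD1 : D ^ t i' ≠ 0 := pow_ne_zero _ hD
    rw [mul_inv_cancel₀ (mul_ne_zero ha1 hD1)] at h5
    refine eqv_trans ?_ h5
    have h6 : a i / a i' * D ^ (t i + t i' * (p - 1)) =
        a i * D ^ t i * (a i' * D ^ t i')⁻¹ * (D ^ t i') ^ p := by
      have h8 : (D ^ t i') ^ p = D ^ t i' * D ^ (t i' * (p - 1)) := by
        rw [← pow_mul, ← pow_add]
        congr 1
        have : p = (p - 1) + 1 := by omega
        conv_lhs => rw [this]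
        ring
      rw [h8, pow_add]
      field_simp
    rw [h6]
    exact eqv_one_mul (eqv_pow_p hD1)
  calc N = (univ : Finset (Fin N)).card := by simp
    _ = (univ.image x).card := (Finset.card_image_of_injective _ hinj).symm
    _ ≤ _ := by
      apply Finset.card_le_card
      intro e he
      obtain ⟨i, _, rfl⟩ := Finset.mem_image.mp he
      simp only [Finset.mem_filter, Finset.mem_univ, true_and]
      exact hx i

end Pool.Agent.Q224.LS
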