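import Pool.Agent.Q7.LS.Stm
import Pool.Agent.Q7.LK.Sum

/-!
# Project LS of helper7, job SUMC: the sum of the exponents
-/

set_option autoImplicit false

namespace Pool.Agent.Q224.LS

open NumberField IsDedekindDomain Filter Topology Finset
open Pool.Agent.Q7.LK Pool.Agent.Q7.LS
open Pool.Agent.Q283.LQ (Sm Box Nest nS)

theorem tot_complex {p : ℕ} [Fact p.Prime] (hp : p ≠ 2) {K : Type} [Field K] [NumberField K] {ζ : K}
    (hζ : IsPrimitiveRoot ζ p) : IsTotallyComplex K := by
  refine ⟨fun v => ?_⟩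
  rw [← InfinitePlace.not_isReal_iff_isComplex]
  intro hv
  exact hζ.ne_one (Fact.out : p.Prime).one_lt (by
    have h1 : (v.embedding_of_isReal hv ζ) ^ p = 1 := by rw [← map_pow, hζ.pow_eq_one, map_one]
    have hodd : Odd p := (Fact.out : p.Prime).odd_of_ne_two hp
    have h2 : v.embedding_of_isReal hv ζ = 1 := by
      have := hodd.strictMono_pow (R := ℝ) |>.injective
      apply this
      simpa using h1
    exact (v.embedding_of_isReal hv).injective (by rw [h2, map_one]))

/-- `∑ [F_v : ℚ_p] = [F : ℚ]` -/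
theorem sum_dv {p : ℕ} [Fact p.Prime] {F : Type} [Field F] [NumberField F] :
    ∑ᶠ v : HeightOneSpectrum (𝓞 F), dv p v = Module.finrank ℚ F := by
  classical
  have : (Ideal.span {(p : ℤ)}).IsMaximal :=
    PrincipalIdealRing.isMaximal_of_irreducible (Nat.prime_iff_prime_int.1 (Fact.out : p.Prime)).irreducible
  have : (Ideal.span {(p : ℤ)}).IsPrime := Ideal.IsMaximal.isPrime inferInstance
  have : Finite ((Ideal.span {(p : ℤ)}).primesOver (𝓞 F)) :=
    Algebra.QuasiFinite.finite_primesOver _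
  have := Fintype.ofFinite ((Ideal.span {(p : ℤ)}).primesOver (𝓞 F))
  have h1 : ∀ v : HeightOneSpectrum (𝓞 F), dv p v = cI p ⊤ v := by
    intro v
    unfold dv cI
    by_cases h : Dp p v
    · rw [if_pos h, if_pos ⟨h, fun h2 => v.isPrime.ne_top (top_le_iff.1 h2)⟩]
    · rw [if_neg h, if_neg (fun h2 => h h2.1)]
  rw [finsum_congr h1, finsum_cI]
  have htot := Ideal.sum_ramification_inertia_eq_finrank (Ideal.span {(p : ℤ)}) (𝓞 F)
  rw [RingOfIntegers.rank] at htot
  rw [← htot]
  refine Finset.sum_congr rfl fun q _ => ?_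
  rw [if_neg (fun h2 => q.2.1.ne_top (top_le_iff.1 h2))]

/-- **JOB SUMC** -/
theorem sumc (hLOC : S_LOC) : S_SUMC := by
  classical
  intro p _ hp F _ _ ζ hζ y hy T S hT hTS hS D0 hD0
  have hfin := (hLOC p hp F ζ hζ y hy).1
  set s := hfin.toFinset with hs
  have hms : ∀ v, v ∈ s ↔ Sm y v := fun v => hfin.mem_toFinset
  have hdvs : ∀ v : HeightOneSpectrum (𝓞 F), dv p v ≠ 0 → v ∈ s := by
    intro v h
    rw [hms]
    by_contra hn
    apply h
    unfold dv
    rw [if_neg]
    exact fun h2 => hn ⟨p, Fact.out, hy, h2⟩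
  have h1 : ∑ᶠ v, cX p y T S D0 v = ∑ v ∈ s, cX p y T S D0 v := by
    apply finsum_eq_sum_of_support_subset
    intro v hv
    rw [Finset.mem_coe, hms]
    by_contra hn
    apply hv
    unfold cX
    rw [if_pos (Or.inr hn)]
  have h2 : dT p T = ∑ v ∈ s, if v ∈ T then dv p v else 0 := by
    unfold dT
    rw [finsum_set_coe_eq_finsum_mem, finsum_mem_def, finsum_eq_sum_of_support_subset (s := s)]
    · apply Finset.sum_congr rfl
      intro v _
      simp [Set.indicator_apply]
    · intro v hv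
      rw [Function.mem_support, Set.indicator_apply] at hv
      apply hdvs
      intro h
      rw [h] at hv
      simp at hv
  have h3 : ∑ v ∈ s, dv p v = 2 * InfinitePlace.nrComplexPlaces F := by
    have htc : IsTotallyComplex F := tot_complex hp hζ
    rw [← IsTotallyComplex.finrank, ← sum_dv (p := p)]
    symm
    apply finsum_eq_sum_of_support_subset
    intro v hv
    exact hdvs v hv
  have h4 : ∑ v ∈ s, (if v ∈ S ∧ Lpw p v D0 then 1 else 0) = sX p S D0 := by
    unfold sX
    have h5 : {v | v ∈ S ∧ Lpw p v D0} = (↑(s.filter fun v => v ∈ S ∧ Lpw p v D0) : Set (HeightOneSpectrum (𝓞 F))) := by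
      ext v
      rw [Finset.mem_coe, Finset.mem_filter, hms]
      exact ⟨fun h => ⟨hS v h.1, h⟩, fun h => h.2⟩
    rw [h5, Set.ncard_coe_finset, Finset.card_filter]
  rw [h1, h2, ← h3, ← h4, ← Finset.sum_add_distrib, ← Finset.sum_add_distrib]
  apply Finset.sum_le_sum
  intro v hv
  rw [hms] at hv
  unfold cX
  by_cases hvT : v ∈ T
  · rw [if_pos (Or.inl hvT), if_pos hvT]
    omega
  · rw [if_neg (by rintro (h | h) <;> contradiction), if_neg hvT]
    by_cases h6 : v ∈ S ∧ Lpw p v D0
    · rw [if_pos h6, if_pos h6]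
    · rw [if_neg h6, if_neg h6]

end Pool.Agent.Q224.LS
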